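import Pool.Agent.MP_92db0f_lc_gold.Defs

/-!
Computations with an oracle in `NP` whose expensive queries depend on the previous answers only
through few bits.
-/

set_option autoImplicit false

namespace Pool.Agent.MP_92db0f_lc_wid

open Turing Computability Lib.helper60 MP_92db0f_lc_gold

/-- Languages decided by a polynomial-time computation in rounds of parallel queries to an oracle in
`NP` (see `Decides`), with `O(n ^ α)` bits of advice, in which all queries cost `O(n ^ k)`, and in
which every query that costs more than `C n ^ δ + C` depends on the answers in the previous rounds
only through `O(n ^ σ)` bits: it is computed by the function `q'` from the input, the advice, the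
number `j` of the query in its round and the string `S`, and the string `S` is computed from the
input, the advice and all the answers in the previous rounds and has length `O(n ^ σ)`. The
functions `S` and `q'` are computed by Turing machines in polynomial time. -/
def InWidth (O : Set (List Bool)) (k σ α δ : ℝ) (L : Set (List Bool)) : Prop :=
  ∃ (R : List Bool × List Bool → Prop)
    (q q' : ((List Bool × List Bool) × List Bool) × ℕ → List Bool)
    (S : (List Bool × List Bool) × List Bool → List Bool)
    (d : (List Bool × List Bool) × List Bool → Bool) (a : ℕ → List Bool) (N : ℕ → ℕ)
    (W P : Polynomial ℕ) (C : ℕ),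
    Decides O L R q d a N W P ∧
    Nonempty (TM2ComputableInPolyTime
      (fun z : ((List Bool × List Bool) × List Bool) × ℕ =>
        encPair (encPair (encPair z.1.1, z.1.2), List.replicate z.2 true)) (fun w => w) q') ∧
    Nonempty (TM2ComputableInPolyTime
      (fun z : (List Bool × List Bool) × List Bool => encPair (encPair z.1, z.2))
        (fun w => w) S) ∧
    (∀ n : ℕ, ((a n).length : ℝ) ≤ C * (n : ℝ) ^ α + C) ∧
    ∀ x : List Bool, ∀ i < N x.length,
      (roundCost R q (x, a x.length) (W.eval x.length) i : ℝ) ≤ C * (x.length : ℝ) ^ k + C ∧
      ((S ((x, a x.length), roundAnswers (Certified R) q (x, a x.length) (W.eval x.length)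
        i)).length : ℝ) ≤ C * (x.length : ℝ) ^ σ + C ∧
      ∀ j < W.eval x.length,
        C * (x.length : ℝ) ^ δ + C < (cost R (q (((x, a x.length),
          roundAnswers (Certified R) q (x, a x.length) (W.eval x.length) i), j)) : ℝ) →
        q (((x, a x.length), roundAnswers (Certified R) q (x, a x.length) (W.eval x.length) i),
          j) = q' (((x, a x.length), S ((x, a x.length),
            roundAnswers (Certified R) q (x, a x.length) (W.eval x.length) i)), j)

end Pool.Agent.MP_92db0f_lc_wid
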