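import Pool.Agent.MP_92db0f_lc_gold.Step

/-!
The self-improvement step for computations whose expensive queries depend on few bits.
-/

set_option autoImplicit false
set_option linter.unusedSectionVars false

namespace Pool.Agent.MP_92db0f_lc_wid

open Lib.helper60 Function Turing Computability
open MP_92db0f_lc hiding answers
open MP_92db0f_lc_alg (answers PolyTime)
open MP_92db0f_lc_gold

variable {O : Set (List Bool)}

/-- the verifier for the queries -/
def VS (R : List Bool × List Bool → Bool) (q' : (List Bool × List Bool) × List Bool → List Bool)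
    (u : List Bool) (K c p : ℕ) (w : List Bool × List Bool) : Bool :=
  R (q' (((prj u K c p w).1.1.1, (prj u K c p w).1.1.2.1), (prj u K c p w).1.1.2.2), w.2)

lemma OPT_VS {R : List Bool × List Bool → Bool} (hR : OPT O R)
    {q' : (List Bool × List Bool) × List Bool → List Bool} (hq' : PT q') (u : List Bool)
    (K c p : ℕ) : OPT O (VS R q' u K c p) := by
  unfold VS
  have h := PT_prj u K c p
  exact hR.comp_PT (PT.pair (hq'.comp (PT.pair (PT.pair h.p1.p1.p1 h.p1.p1.p2.p1) h.p1.p1.p2.p2))
    PT.snd)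

lemma VS_inst (R : List Bool × List Bool → Bool)
    (q' : (List Bool × List Bool) × List Bool → List Bool) (u : List Bool) (K c p E r : ℕ)
    (x : List Bool) (t : ℕ) (a f is y : List Bool) :
    VS R q' u K c p (inst E r x t a f is, y) = R (q' ((zred u K c p (x, t), a), f), y) := by
  unfold VS prj inst core
  simp only [unpair_enc, List.length_replicate]

/-- **The step.** -/
theorem step' (M : Mach O) {S q' : (List Bool × List Bool) × List Bool → List Bool} (hS : PT S)
    (hq' : PT q') {r p κ : ℕ} (hr : 2 ≤ r) (hp : r ≤ p) (hκ : 1 ≤ κ)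
    (hb : ∀ c₀ : ℕ, ∃ A, ∀ (z : List Bool) (t : ℕ), 1 ≤ t → z.length ≤ c₀ * t ^ p →
      (M.a z.length).length ≤ A * t ^ (r - 1) ∧
      ∀ i < M.N z.length, (S ((z, M.a z.length), M.v z i)).length ≤ A * t ^ r ∧
        (A * t ^ κ < cost (fun p => M.R p = true) (M.Q z i) →
          M.Q z i = q' ((z, M.a z.length), S ((z, M.a z.length), M.v z i))))
    (hΦ : ∀ L, InN O r r L → InDA O r κ L) {L : Set (List Bool)} (hL : InN O r p L) :
    InDA O r κ L := by
  classical
  obtain ⟨u, K, c, hu⟩ := reduce (by omega) hL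
  obtain ⟨c₀, hc₀⟩ := zlen_le u K c p
  obtain ⟨A, hA⟩ := hb c₀
  have hlen : ∀ x : List Bool, (zred u K c p (x, wd r x.length)).length ≤
      c₀ * wd r x.length ^ p := by
    intro x
    rw [length_zred]
    exact hc₀ _ _ (wd_pos r _) ((lt_wd_pow (by omega) _).le.trans
      (Nat.pow_le_pow_right (wd_pos r _) hp))
  have ha : ∀ m, (M.a (zlen u K c p m (wd r m))).length ≤ A * wd r m ^ (r - 1) := by
    intro m
    have h1 := (hA (zred u K c p (List.replicate m true, wd r m)) (wd r m) (wd_pos r m) (by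
      have := hlen (List.replicate m true)
      rwa [List.length_replicate] at this)).1
    rwa [length_zred, List.length_replicate] at h1
  obtain ⟨D₂, hD₂⟩ := M.exists_cert u K c p r A (by omega) hp ha
  obtain ⟨E, hE⟩ : ∃ E, E = 2 * (2 + 2 + (2 + 2 + (2 * A + 2 + (2 * A + 2)))) + 2 := ⟨_, rfl⟩
  -- the language of the queries
  have hΦN : InN O r r {w | ∃ y : List Bool,
      y.length ≤ 2 ^ (D₂ * wd r w.length ^ r) ∧ VS M.R q' u K c p (w, y) = true} :=
    ⟨VS M.R q' u K c p, D₂, OPT_VS M.hR hq' u K c p, fun _ => Iff.rfl⟩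
  obtain ⟨W, bΦ, cΦ, hW, hbΦ, hWc⟩ := hΦ _ hΦN
  have hF : OPT O (fun w : (List Bool × List Bool × ℕ) × List Bool =>
      brute M.R (M.q ((zE u K c p w.1, aE w.1), w.2), w.1.2.2) ||
      (decide (M.q ((zE u K c p w.1, aE w.1), w.2) = q' ((zE u K c p w.1, aE w.1),
        S ((zE u K c p w.1, aE w.1), w.2))) &&
      W (inst E r w.1.1 (tE w.1) (aE w.1) (S ((zE u K c p w.1, aE w.1), w.2)) [],
        pE w.1, w.1.2.2))) := by
    have ez : PT (fun w : (List Bool × List Bool × ℕ) × List Bool =>
        (zE u K c p w.1, aE w.1)) := PT.pair ((PT_zE u K c p).comp PT.fst) (PT_aE.comp PT.fst)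
    have eS : PT (fun w : (List Bool × List Bool × ℕ) × List Bool =>
        S ((zE u K c p w.1, aE w.1), w.2)) := hS.comp (PT.pair ez PT.snd)
    refine OPT.bor ((OPT_brute M.hR).comp_PT (PT.pair (M.hq.comp (PT.pair ez PT.snd))
      PT.fst.p2.p2)) (OPT.band (OPT.of_PT (PT_leq (M.hq.comp (PT.pair ez PT.snd))
        (hq'.comp (PT.pair ez eS)))) (hW.comp_PT ?_))
    exact PT.pair (PT_inst E r PT.fst.p1 (PT_tE.comp PT.fst) (PT_aE.comp PT.fst) eS (PT.const []))
      (PT.pair (PT_pE.comp PT.fst) PT.fst.p2.p2)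
  refine eval_lemma M hr hp hκ hu (A := A + 1 + cΦ * (E + 1) ^ (r - 1) + cΦ * (E + 1) ^ κ) ?_
    (β := fun m => bΦ (E * wd r m ^ r)) ?_ hF ?_
  · intro m
    refine (ha m).trans (Nat.mul_le_mul_right _ ?_)
    omega
  · intro m
    have h1 := hbΦ (E * wd r m ^ r)
    have ht := wd_pos r m
    have h2 : wd r (E * wd r m ^ r) ≤ E * wd r m + 1 := wd_le_mul (by omega) le_rfl
    have h3 : E * wd r m + 1 ≤ (E + 1) * wd r m := by rw [Nat.add_mul, Nat.one_mul]; omega
    have h4 : wd r (E * wd r m ^ r) ^ (r - 1) ≤ (E + 1) ^ (r - 1) * wd r m ^ (r - 1) := by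
      rw [← mul_pow]
      exact Nat.pow_le_pow_left (h2.trans h3) _
    have h5 := Nat.mul_le_mul_left cΦ h4
    refine h1.trans (h5.trans ?_)
    rw [← Nat.mul_assoc]
    exact Nat.mul_le_mul_right _ (by omega)
  · intro x pad hpad i hi
    obtain ⟨t, ht⟩ : ∃ t, t = wd r x.length := ⟨_, rfl⟩
    have ht1 : 1 ≤ t := by rw [ht]; exact wd_pos _ _
    obtain ⟨z, hz⟩ : ∃ z, z = zred u K c p (x, t) := ⟨_, rfl⟩
    have hzl : zlen u K c p x.length t = z.length := by rw [hz, length_zred]
    have hzc : z.length ≤ c₀ * t ^ p := by rw [hz, ht]; exact hlen x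
    have hcert := hD₂ x
    have haz := ha x.length
    rw [← ht] at hpad hi hcert haz ⊢
    rw [hzl] at hi hcert haz ⊢
    rw [← hz] at hcert ⊢
    obtain ⟨hSl, hQS⟩ := (hA z t ht1 hzc).2 i hi
    have hxt : x.length < t ^ r := by rw [ht]; exact lt_wd_pow (by omega) _
    have ht1' : 1 ≤ t ^ r := Nat.one_le_pow _ _ ht1
    have htr : t ≤ t ^ r := Nat.le_self_pow (by omega) _
    have htr1 : t ^ (r - 1) ≤ t ^ r := Nat.pow_le_pow_right ht1 (by omega)
    obtain ⟨β, hβ⟩ : ∃ β, β = bΦ (E * t ^ r) := ⟨_, rfl⟩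
    rw [← hβ]
    obtain ⟨e, he⟩ : ∃ e, e = (x, adv t (M.a z.length) β (M.N z.length), pad) := ⟨_, rfl⟩
    rw [← he]
    have he1 : e.1 = x := by rw [he]
    have he2 : e.2.2 = pad := by rw [he]
    have het : tE e = t := by rw [he]; exact tE_adv _ _ _ _ _ _
    have hea : aE e = M.a z.length := by rw [he]; exact aE_adv _ _ _ _ _ _
    have hep : pE e = β := by rw [he]; exact pE_adv _ _ _ _ _ _
    have hez : zE u K c p e = z := by
      unfold zE
      rw [het, he1, hz]
    dsimp only
    rw [he1, he2, het, hea, hep, hez]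
    obtain ⟨s, hs⟩ : ∃ s, s = S ((z, M.a z.length), M.v z i) := ⟨_, rfl⟩
    have hQ : M.q ((z, M.a z.length), M.v z i) = M.Q z i := rfl
    rw [← hs] at hSl hQS ⊢
    rw [hQ]
    have hcore : 2 * (core x t (M.a z.length) s []).length + 2 ≤ E * t ^ r := by
      rw [length_core, List.length_nil]
      have h2 : A * t ^ (r - 1) ≤ A * t ^ r := Nat.mul_le_mul_left _ htr1
      have h3 : E * t ^ r = 2 * (2 * t ^ r + 2 * t ^ r + (2 * t ^ r + 2 * t ^ r +
        (2 * (A * t ^ r) + 2 * t ^ r + (2 * (A * t ^ r) + 2 * t ^ r)))) + 2 * t ^ r := by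
        rw [hE]; ring
      rw [h3]
      omega
    obtain ⟨w, hw⟩ : ∃ w, w = inst E r x t (M.a z.length) s [] := ⟨_, rfl⟩
    have hwl : w.length = E * t ^ r := by rw [hw]; exact length_inst hcore
    -- the meaning of the query
    have hmean : (∃ y : List Bool, y.length ≤ 2 ^ (D₂ * wd r w.length ^ r) ∧
        VS M.R q' u K c p (w, y) = true) ↔ ∃ y : List Bool,
          y.length ≤ 2 ^ (D₂ * wd r w.length ^ r) ∧
            M.R (q' ((z, M.a z.length), s), y) = true := by
      rw [hw, hz]
      simp only [VS_inst]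
    have hWw : W (w, β, pad) = true ↔ ∃ y : List Bool,
          y.length ≤ 2 ^ (D₂ * wd r w.length ^ r) ∧
            M.R (q' ((z, M.a z.length), s), y) = true := by
      have h1 := hWc w pad (by
        rw [hwl]
        refine le_trans (Nat.pow_le_pow_right (by norm_num) ?_) hpad
        have h2 : wd r (E * t ^ r) ≤ E * t + 1 := wd_le_mul (by omega) le_rfl
        have h3 : E * t + 1 ≤ (E + 1) * t := by rw [Nat.add_mul, Nat.one_mul]; omega
        have h4 : wd r (E * t ^ r) ^ κ ≤ (E + 1) ^ κ * t ^ κ := by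
          rw [← mul_pow]
          exact Nat.pow_le_pow_left (h2.trans h3) _
        have h5 := Nat.mul_le_mul_left cΦ h4
        rw [← Nat.mul_assoc] at h5
        exact h5.trans (Nat.mul_le_mul_right _ (by omega)))
      rw [hwl, ← hβ] at h1
      rw [← h1]
      exact hmean
    rw [← hw, Bool.or_eq_true, Bool.and_eq_true, decide_eq_true_eq, hWw]
    constructor
    · rintro (h | ⟨h1, y, _, hy⟩)
      · exact brute_sound h
      · rw [← h1] at hy
        exact ⟨y, hy⟩
    · intro h
      rcases Nat.lt_or_ge (A * t ^ κ) (cost (fun p => M.R p = true) (M.Q z i)) with h1 | h1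
      · right
        have h2 := hQS h1
        obtain ⟨y, hy⟩ := h
        refine ⟨h2, y, ?_, ?_⟩
        · refine (M.hlen _ _ hy).trans ((hcert i hi).trans ?_)
          apply Nat.pow_le_pow_right (by norm_num)
          apply Nat.mul_le_mul_left
          have h3 : t ≤ wd r w.length := by
            rw [hwl]
            refine (self_le_wd (u := t) (by omega) ?_).le
            have h3 : 1 ≤ E := by omega
            have h4 : 1 * t ^ r ≤ E * t ^ r := Nat.mul_le_mul_right _ h3
            omega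
          exact h3.trans (Nat.le_self_pow (by omega) _)
        · rw [← h2]
          exact hy
      · left
        refine brute_complete (l := A * t ^ κ) ?_ h h1
        have h2 : 1 ≤ t ^ κ := Nat.one_le_pow _ _ ht1
        have h3 : A * t ^ κ + 1 ≤ (A + 1 + cΦ * (E + 1) ^ (r - 1) + cΦ * (E + 1) ^ κ) * t ^ κ := by
          have h4 : (A + 1) * t ^ κ ≤ (A + 1 + cΦ * (E + 1) ^ (r - 1) + cΦ * (E + 1) ^ κ) *
            t ^ κ := Nat.mul_le_mul_right _ (by omega)
          rw [Nat.add_mul A 1, Nat.one_mul] at h4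
          omega
        have h4 := Nat.pow_le_pow_right (show 0 < 2 by norm_num) h3
        omega

end Pool.Agent.MP_92db0f_lc_wid
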