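import Pool.Agent.MP_92db0f_lc_gold.Main
import Pool.Agent.MP_92db0f_lc_wid.Defs
import Pool.Agent.MP_92db0f_lc_wid.Step

/-!
The lower bound for computations whose expensive queries depend on few bits.
-/

set_option autoImplicit false
set_option linter.unusedSectionVars false

namespace Pool.Agent.MP_92db0f_lc_wid

open Lib.helper60 Function Turing Computability
open MP_92db0f_lc hiding answers
open MP_92db0f_lc_alg (answers PolyTime)
open MP_92db0f_lc_gold

/-! ### the sequential computation -/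

/-- the bits on which the next query depends -/
def flatS (W : Polynomial ℕ) (S : (List Bool × List Bool) × List Bool → List Bool)
    (w : (List Bool × List Bool) × List Bool) : List Bool :=
  encPair (S (w.1, w.2.take (dv (W.eval w.1.1.length) w.2.length * W.eval w.1.1.length)),
    str (w.2.length - dv (W.eval w.1.1.length) w.2.length * W.eval w.1.1.length))

/-- the next query in terms of these bits -/
def flatR (W : Polynomial ℕ) (q' : ((List Bool × List Bool) × List Bool) × ℕ → List Bool)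
    (w : (List Bool × List Bool) × List Bool) : List Bool :=
  q' ((w.1, (unpair w.2).1), vlc (W.eval w.1.1.length) (unpair w.2).2)

lemma PT_flatS (W : Polynomial ℕ) {S : (List Bool × List Bool) × List Bool → List Bool}
    (hS : PT S) : PT (flatS W S) := by
  unfold flatS
  have hK : PT (fun w : (List Bool × List Bool) × List Bool => W.eval w.1.1.length) :=
    PT_peval W (PT.length PT.fst.p1)
  have hm : PT (fun w : (List Bool × List Bool) × List Bool =>
      dv (W.eval w.1.1.length) w.2.length * W.eval w.1.1.length) :=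
    PT.nmul (PT_dv hK (PT.length PT.snd)) hK
  exact PT_encPair (hS.comp (PT.pair PT.fst (PT_take hm PT.snd)))
    (PT_str (PT.nsub (PT.length PT.snd) hm))

lemma PT_flatR (W : Polynomial ℕ) {q' : ((List Bool × List Bool) × List Bool) × ℕ → List Bool}
    (hq : PT q') : PT (flatR W q') := by
  unfold flatR
  have hu : PT (fun w : (List Bool × List Bool) × List Bool => unpair w.2) :=
    PT_unpair.comp PT.snd
  exact hq.comp (PT.pair (PT.pair PT.fst hu.p1) (PT_vlc (PT_peval W (PT.length PT.fst.p1)) hu.p2))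

lemma flatS_answers (B : Set (List Bool)) (W : Polynomial ℕ)
    (q : ((List Bool × List Bool) × List Bool) × ℕ → List Bool)
    (S : (List Bool × List Bool) × List Bool → List Bool) (z : List Bool × List Bool)
    (i j : ℕ) (hj : j < W.eval z.1.length) :
    flatS W S (z, answers B (flatQ W q) z (i * W.eval z.1.length + j)) =
      encPair (S (z, roundAnswers B q z (W.eval z.1.length) i), str j) := by
  have hl := length_answers B (flatQ W q) z (i * W.eval z.1.length + j)
  have ht := answers_take B (flatQ W q) z (i * W.eval z.1.length + j) (i * W.eval z.1.length)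
    (by omega)
  rw [roundAnswers_eq, ← ht]
  obtain ⟨v, hv⟩ : ∃ v, v = answers B (flatQ W q) z (i * W.eval z.1.length + j) := ⟨_, rfl⟩
  rw [← hv] at hl ⊢
  unfold flatS
  dsimp only
  rw [hl, dv_eq hj, Nat.add_sub_cancel_left]

lemma flatR_enc (W : Polynomial ℕ) (q' : ((List Bool × List Bool) × List Bool) × ℕ → List Bool)
    (z : List Bool × List Bool) (s : List Bool) (j : ℕ) (hj : j < W.eval z.1.length) :
    flatR W q' (z, encPair (s, str j)) = q' ((z, s), j) := by
  unfold flatR
  dsimp only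
  rw [unpair_enc]
  dsimp only
  rw [vlc_eq, vl_str, min_eq_right hj.le]

/-- **The lower bound.** -/
theorem lower (O : Set (List Bool)) {k σ α δ : ℝ} (hk : 1 ≤ k) (hσ : k * σ < 1) (hα : k * α < 1)
    (hδ : δ < 1) : ¬ InWidth O k σ α δ (KL O) := by
  rintro ⟨R', q, q', S, d, a, N, Wd, P, C, hD, hq', hS, ha, hx⟩
  obtain ⟨R, hR, hRR⟩ := exists_OPT hD.verifier
  obtain rfl : R' = fun p => R p = true := by
    funext p
    exact propext (hRR p)
  obtain ⟨M, hM⟩ : ∃ M, M = hD.mach hR := ⟨_, rfl⟩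
  have hMa : M.a = a := by rw [hM]; rfl
  have hMN : ∀ n, M.N n = N n * Wd.eval n := fun n => by rw [hM]; rfl
  have hMR : M.R = R := by rw [hM]; rfl
  have hcost : ∀ (z : List Bool) (ρ j : ℕ), j < Wd.eval z.length →
      cost (fun p => M.R p = true) (M.Q z (ρ * Wd.eval z.length + j)) ≤
        roundCost (fun p => R p = true) q (z, a z.length) (Wd.eval z.length) ρ := by
    intro z ρ j hj
    rw [hM]
    exact cost_le_round hR hD z hj
  have hQ : ∀ (z : List Bool) (ρ j : ℕ), j < Wd.eval z.length →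
      M.Q z (ρ * Wd.eval z.length + j) = q (((z, a z.length), roundAnswers
        (Certified fun p => R p = true) q (z, a z.length) (Wd.eval z.length) ρ), j) := by
    intro z ρ j hj
    rw [hM]
    exact flatQ_query (Certified fun p => R p = true) Wd q (z, a z.length) ρ j hj
  have hSv : ∀ (z : List Bool) (ρ j : ℕ), j < Wd.eval z.length →
      flatS Wd S ((z, a z.length), M.v z (ρ * Wd.eval z.length + j)) =
        encPair (S ((z, a z.length), roundAnswers (Certified fun p => R p = true) q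
          (z, a z.length) (Wd.eval z.length) ρ), str j) := by
    intro z ρ j hj
    rw [hM]
    exact flatS_answers (Certified fun p => R p = true) Wd q S (z, a z.length) ρ j hj
  clear hM
  obtain ⟨r, κ, hr, hrκ, h1, h2, h3⟩ := exists_param (k := k) (γ := max σ α) (δ := δ) hk
    (by rcases max_choice σ α with h | h <;> rw [h] <;> assumption) hδ
  have hκσ : ((κ + 3 : ℕ) : ℝ) * σ ≤ ((r - 1 : ℕ) : ℝ) :=
    (mul_le_mul_of_nonneg_left (le_max_left _ _) (Nat.cast_nonneg _)).trans h2
  have hκα : ((κ + 3 : ℕ) : ℝ) * α ≤ ((r - 1 : ℕ) : ℝ) :=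
    (mul_le_mul_of_nonneg_left (le_max_right _ _) (Nat.cast_nonneg _)).trans h2
  -- decomposition of the numbers of the queries
  have hdec : ∀ (z : List Bool) (i : ℕ), i < M.N z.length → ∃ ρ j, j < Wd.eval z.length ∧
      i = ρ * Wd.eval z.length + j ∧ ρ < N z.length := by
    intro z i hi
    rw [hMN] at hi
    have hK : 1 ≤ Wd.eval z.length := by
      by_contra hn
      have h6 : Wd.eval z.length = 0 := by omega
      rw [h6, Nat.mul_zero] at hi
      omega
    obtain ⟨ρ, j, hj, hij, _⟩ := exists_dv hK i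
    refine ⟨ρ, j, hj, hij, ?_⟩
    by_contra hn
    have h6 : N z.length * Wd.eval z.length ≤ ρ * Wd.eval z.length :=
      Nat.mul_le_mul_right _ (not_lt.mp hn)
    omega
  -- the bounds
  have hbase : ∀ c₀ : ℕ, ∃ A, ∀ (z : List Bool) (t : ℕ), 1 ≤ t → z.length ≤ c₀ * t ^ r →
      (M.a z.length).length ≤ A * t ^ (r - 1) ∧
      ∀ i < M.N z.length, cost (fun p => M.R p = true) (M.Q z i) ≤ A * t ^ κ := by
    intro c₀
    obtain ⟨A₁, hA₁⟩ := rpow_nat_le C c₀ r (r - 1) α (by
      rcases le_or_gt α 0 with h | h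
      · exact (mul_nonpos_of_nonneg_of_nonpos (Nat.cast_nonneg _) h).trans (Nat.cast_nonneg _)
      · refine le_trans (mul_le_mul_of_nonneg_right ?_ h.le) hκα
        exact_mod_cast (by omega : r ≤ κ + 3))
    obtain ⟨A₂, hA₂⟩ := rpow_nat_le C c₀ r κ k h1
    refine ⟨A₁ + A₂, fun z t ht hz => ⟨?_, fun i hi => ?_⟩⟩
    · have h4 := (ha z.length).trans (hA₁ _ t ht hz)
      have h5 : (a z.length).length ≤ A₁ * t ^ (r - 1) := by exact_mod_cast h4
      rw [hMa]
      exact h5.trans (Nat.mul_le_mul_right _ (by omega))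
    · obtain ⟨ρ, j, hj, hij, hρ⟩ := hdec z i hi
      have h4 := ((hx z ρ hρ).1).trans (hA₂ _ t ht hz)
      have h5 : roundCost (fun p => R p = true) q (z, a z.length) (Wd.eval z.length) ρ ≤
        A₂ * t ^ κ := by exact_mod_cast h4
      rw [hij]
      exact (hcost z ρ j hj).trans (h5.trans (Nat.mul_le_mul_right _ (by omega)))
  have hstep : ∀ c₀ : ℕ, ∃ A, ∀ (z : List Bool) (t : ℕ), 1 ≤ t → z.length ≤ c₀ * t ^ (κ + 3) →
      (M.a z.length).length ≤ A * t ^ (r - 1) ∧
      ∀ i < M.N z.length, (flatS Wd S ((z, M.a z.length), M.v z i)).length ≤ A * t ^ r ∧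
        (A * t ^ κ < cost (fun p => M.R p = true) (M.Q z i) →
          M.Q z i = flatR Wd q' ((z, M.a z.length), flatS Wd S ((z, M.a z.length),
            M.v z i))) := by
    intro c₀
    obtain ⟨A₁, hA₁⟩ := rpow_nat_le C c₀ (κ + 3) (r - 1) α hκα
    obtain ⟨A₂, hA₂⟩ := rpow_nat_le C c₀ (κ + 3) (r - 1) σ hκσ
    obtain ⟨A₃, hA₃⟩ := rpow_nat_le C c₀ (κ + 3) κ δ (h3 κ hrκ)
    obtain ⟨s₀, hs₀⟩ := exists_poly_le (Wd.comp (Polynomial.C c₀ * Polynomial.X ^ (κ + 3)) + 2)
    refine ⟨A₁ + (2 * A₂ + 2 + s₀ + 1) + A₃, fun z t ht hz => ⟨?_, fun i hi => ⟨?_, ?_⟩⟩⟩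
    · have h4 := (ha z.length).trans (hA₁ _ t ht hz)
      have h5 : (a z.length).length ≤ A₁ * t ^ (r - 1) := by exact_mod_cast h4
      rw [hMa]
      exact h5.trans (Nat.mul_le_mul_right _ (by omega))
    · obtain ⟨ρ, j, hj, hij, hρ⟩ := hdec z i hi
      have h4 := ((hx z ρ hρ).2.1).trans (hA₂ _ t ht hz)
      have h5 : (S ((z, a z.length), roundAnswers (Certified fun p => R p = true) q
        (z, a z.length) (Wd.eval z.length) ρ)).length ≤ A₂ * t ^ (r - 1) := by exact_mod_cast h4
      rw [hij, hMa, hSv z ρ j hj, length_encPair]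
      have h6 : (str j).length < s₀ + t := by
        apply length_str_lt
        have h7 := hs₀ t
        have h8 : (Wd.comp (Polynomial.C c₀ * Polynomial.X ^ (κ + 3)) + 2).eval t =
            Wd.eval (c₀ * t ^ (κ + 3)) + 2 := by simp [Polynomial.eval_comp]
        have h9 : Wd.eval z.length ≤ Wd.eval (c₀ * t ^ (κ + 3)) := evalMono Wd hz
        omega
      have h7 : t ^ (r - 1) ≤ t ^ r := Nat.pow_le_pow_right ht (by omega)
      have h8 : t ≤ t ^ r := Nat.le_self_pow (by omega) _
      have h9 : 1 ≤ t ^ r := Nat.one_le_pow _ _ ht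
      have h10 : A₂ * t ^ (r - 1) ≤ A₂ * t ^ r := Nat.mul_le_mul_left _ h7
      have h11 : s₀ ≤ s₀ * t ^ r := Nat.le_mul_of_pos_right _ (by omega)
      have h12 : (A₁ + (2 * A₂ + 2 + s₀ + 1) + A₃) * t ^ r = A₁ * t ^ r + (2 * (A₂ * t ^ r) +
        2 * t ^ r + s₀ * t ^ r + t ^ r) + A₃ * t ^ r := by ring
      rw [h12]
      omega
    · obtain ⟨ρ, j, hj, hij, hρ⟩ := hdec z i hi
      intro hc
      rw [hij] at hc ⊢
      rw [hMa, hSv z ρ j hj, flatR_enc Wd q' (z, a z.length) _ j hj, hQ z ρ j hj]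
      apply (hx z ρ hρ).2.2 j hj
      rw [hQ z ρ j hj, hMR] at hc
      have h4 := hA₃ z.length t ht hz
      refine lt_of_le_of_lt h4 ?_
      have h5 : A₃ * t ^ κ ≤ (A₁ + (2 * A₂ + 2 + s₀ + 1) + A₃) * t ^ κ :=
        Nat.mul_le_mul_right _ (by omega)
      exact_mod_cast lt_of_le_of_lt h5 hc
  have h5 : ∀ L, InN O r r L → InDA O r κ L := fun L hL => base M hr (by omega) hbase hL
  have h6 : ∀ L, InN O r (κ + 3) L → InDA O r κ L := fun L hL =>
    step' M (PT_flatS Wd (PT_of_str hS)) (PT_flatR Wd (PT_of_strN hq')) hr (by omega) (by omega)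
      hstep h5 hL
  exact hierarchy O hr (h6 _ (LD_mem O r κ))

end Pool.Agent.MP_92db0f_lc_wid
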