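import Pool.Agent.MP_92db0f_lc_thr.Upper2

/-!
The oracle relative to which `NE` is decided with few unambiguous queries: the number of all
queries is small, too.
-/

set_option autoImplicit false

namespace Pool.Agent.MP_92db0f_lc_thr

open Turing Computability Lib.helper60 MP_92db0f_lc_alg
open MP_92db0f_lc hiding answers InNEXP
open MP_92db0f_lc_mul (mextOracle thirds)

/-- **The upper bound,** with a bound for the number of all queries. -/
theorem upper' {a b : ℕ} (hb : 1 ≤ b) (hab : b ≤ a) {E : ℕ → Type} [∀ i, CommRing (E i)]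
    {len : ℕ → ℕ} (cod : (i : ℕ) → E i → Fin (len i) → Bool)
    (hcod : ∀ i, Function.Injective (cod i)) :
    ∃ A : Set (List Bool), ∀ L, InNE (join A (mextOracle cod A)) L →
      ∃ (C : ℕ) (T : ℕ → ℕ) (F : ℕ → ℕ → ℕ) (R : List Bool × List Bool → Prop)
        (q : (List Bool × List Bool) × List Bool → List Bool)
        (d : (List Bool × List Bool) × List Bool → Bool),
        (∀ n, (2 ^ T n) ^ a ≤ C * n ^ b + C) ∧
        (∀ n, 2 ^ T n ≤ C * n + C) ∧ (∀ n, F n 0 ^ a ≤ C * n ^ b + C) ∧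
        (∀ n, F n (C * n + C) ≤ 1) ∧ (∀ n ℓ, C * n ^ a + C < ℓ ^ b → F n ℓ = 0) ∧
        (∀ Q y y', R (Q, y) → R (Q, y') → y = y') ∧
        Decides A T F (fun _ => []) (fun w => w) R q d L := by
  classical
  obtain ⟨g, hg⟩ := exists_surjective_nat Mach
  obtain ⟨Y, κ, f, hκ1, hlv, hτ, hcdH, hcdV, hacc⟩ := exists_sysN hb hab cod hcod g
  obtain ⟨A, H, on, hH, hon, hcodeH, hcodeV, huniq⟩ := exists_limit Y
  refine ⟨A, fun L hL => ?_⟩
  obtain ⟨μ, hμ⟩ := exists_machN hL
  obtain ⟨e, rfl⟩ := hg μ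
  obtain ⟨k, hk⟩ : ∃ k, k = κ e := ⟨_, rfl⟩
  have hk1 : 1 ≤ k := by rw [hk]; exact hκ1 e
  have ha : 1 ≤ a := hb.trans hab
  have hm1 : ∀ n, 1 ≤ k * (n + 1) := fun n => Nat.mul_pos hk1 (by omega)
  -- the answers
  obtain ⟨B, hB⟩ : ∃ B, B = join A (certified (fun w => w) (thR A)) := ⟨_, rfl⟩
  have hBm : ∀ z, true :: z ∈ B ↔ ∃ b, b.length = z.length ∧ z ++ (b ++ b) ∈ A := by
    intro z
    rw [hB, MP_92db0f_lc_mul.mem_join_true, certified_thR]
    rfl
  have hans : ∀ (x y : List Bool), ∀ i ≤ Off (τf a b (k * (x.length + 1))),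
      answers B (mq a b e k) (x, y) i = (hs Dg H (τf a b (k * (x.length + 1)))).take i := by
    intro x y i
    induction i with
    | zero => intro _; rfl
    | succ i ih =>
      intro hi
      obtain ⟨h1, h2⟩ := lg_spec i
      obtain ⟨t, ht⟩ : ∃ t, t = lg i := ⟨_, rfl⟩
      obtain ⟨j, hj⟩ := Nat.exists_eq_add_of_le h1
      rw [← ht] at hj h2
      have hjD : j < Dg t := by
        rw [Off_succ] at h2
        omega
      have htτ : t < τf a b (k * (x.length + 1)) := by
        by_contra h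
        have := Off_mono (not_lt.1 h)
        omega
      have h3 := ih (by omega)
      rw [answers, h3, hj, hs_take H htτ hjD.le, Nat.add_assoc, hs_take H htτ hjD, sb,
        List.append_assoc]
      congr 3
      rw [mq_lt hb hab htτ hjD (by rw [List.length_append, length_hs_Dg, length_sb]),
        List.drop_append_of_le_length (by rw [length_hs_Dg]),
        List.drop_of_length_le (by rw [length_hs_Dg]), List.nil_append, Bool.eq_iff_iff,
        decide_eq_true_iff, decide_eq_true_iff, hBm]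
      have h4 := hcodeH t (sb (Dg t) (H t) j) (by rw [length_sb]; exact hjD)
      rw [hcdH] at h4
      exact h4
  have hfull : ∀ (x y : List Bool),
      answers B (mq a b e k) (x, y) (Off (τf a b (k * (x.length + 1)))) =
        hs Dg H (τf a b (k * (x.length + 1))) := by
    intro x y
    rw [hans x y _ le_rfl, List.take_of_length_le (by rw [length_hs_Dg])]
  -- the constants
  obtain ⟨C₂, hC₂⟩ : ∃ C, C = (139 + 2 * e) ^ b * (4 ^ b * ((k + 1) ^ a * 2 ^ a)) := ⟨_, rfl⟩
  obtain ⟨C₃, hC₃⟩ : ∃ C, C = 10 ^ a * (2 ^ a * (k ^ b * 2 ^ b)) := ⟨_, rfl⟩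
  obtain ⟨C₄, hC₄⟩ : ∃ C, C = (137 * k) ^ b * 2 ^ a := ⟨_, rfl⟩
  obtain ⟨C₅, hC₅⟩ : ∃ C, C = 16 ^ a * (2 ^ a * (k ^ b * 2 ^ b)) := ⟨_, rfl⟩
  obtain ⟨C, hC⟩ : ∃ C, C = C₂ + C₃ + C₄ + 137 * k + 1 + C₅ := ⟨_, rfl⟩
  have hT : ∀ n, 2 ^ (τf a b (k * (n + 1)) + 4) ≤ 16 * (k * (n + 1)) := by
    intro n
    have h1 := two_pow_τf hb hab (hm1 n)
    rw [pow_add]
    omega
  have hoffT : ∀ n, Off (τf a b (k * (n + 1))) < 2 ^ (τf a b (k * (n + 1)) + 4) := by
    intro n
    unfold Off
    rw [pow_add]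
    have : 1 ≤ 2 ^ τf a b (k * (n + 1)) := Nat.one_le_two_pow
    omega
  let F : ℕ → ℕ → ℕ := fun n ℓ =>
    (if ℓ ≤ 137 * (k * (n + 1)) then Off (τf a b (k * (n + 1))) else 0) +
      (if ℓ ^ b ≤ C₂ * n ^ a + C₂ then 1 else 0)
  have hF : ∀ n ℓ, F n ℓ = (if ℓ ≤ 137 * (k * (n + 1)) then Off (τf a b (k * (n + 1))) else 0) +
      (if ℓ ^ b ≤ C₂ * n ^ a + C₂ then 1 else 0) := fun _ _ => rfl
  refine ⟨C, fun n => τf a b (k * (n + 1)) + 4, F, thR A, mq a b e k, md a b k, ?_, ?_, ?_, ?_,
    ?_, ?_, ?_⟩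
  · intro n
    have h2 := two_pow_τf_pow hb hab (hm1 n)
    calc (2 ^ (τf a b (k * (n + 1)) + 4)) ^ a = 16 ^ a * (2 ^ τf a b (k * (n + 1))) ^ a := by
          rw [pow_add, mul_pow, Nat.mul_comm]
          norm_num
      _ ≤ 16 ^ a * (2 ^ a * (k * (n + 1)) ^ b) := Nat.mul_le_mul_left _ h2
      _ ≤ 16 ^ a * (2 ^ a * (k ^ b * (2 ^ b * (n ^ b + 1)))) := by
          rw [mul_pow]
          exact Nat.mul_le_mul_left _ (Nat.mul_le_mul_left _ (Nat.mul_le_mul_left _
            (succ_pow_le n b)))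
      _ = C₅ * n ^ b + C₅ := by rw [hC₅]; ring
      _ ≤ C * n ^ b + C := by
          have h3 : C₅ ≤ C := by omega
          have h4 := Nat.mul_le_mul_right (n ^ b) h3
          omega
  · intro n
    refine (hT n).trans ?_
    have h1 : 16 * (k * (n + 1)) = 16 * k * n + 16 * k := by ring
    have h2 : 16 * k ≤ C := by omega
    have h3 := Nat.mul_le_mul_right n h2
    omega
  · intro n
    have h1 : F n 0 ≤ 10 * 2 ^ τf a b (k * (n + 1)) := by
      rw [hF, if_pos (Nat.zero_le _)]
      unfold Off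
      have : 1 ≤ 2 ^ τf a b (k * (n + 1)) := Nat.one_le_two_pow
      split_ifs <;> omega
    have h2 := two_pow_τf_pow hb hab (hm1 n)
    calc F n 0 ^ a ≤ (10 * 2 ^ τf a b (k * (n + 1))) ^ a := Nat.pow_le_pow_left h1 a
      _ = 10 ^ a * (2 ^ τf a b (k * (n + 1))) ^ a := mul_pow _ _ _
      _ ≤ 10 ^ a * (2 ^ a * (k * (n + 1)) ^ b) := Nat.mul_le_mul_left _ h2
      _ ≤ 10 ^ a * (2 ^ a * (k ^ b * (2 ^ b * (n ^ b + 1)))) := by
          rw [mul_pow]
          exact Nat.mul_le_mul_left _ (Nat.mul_le_mul_left _ (Nat.mul_le_mul_left _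
            (succ_pow_le n b)))
      _ = C₃ * n ^ b + C₃ := by rw [hC₃]; ring
      _ ≤ C * n ^ b + C := by
          have h3 : C₃ ≤ C := by omega
          have h4 := Nat.mul_le_mul_right (n ^ b) h3
          omega
  · intro n
    rw [hF, if_neg]
    · split_ifs <;> omega
    · have h1 : 137 * (k * (n + 1)) = 137 * k * n + 137 * k := by ring
      have h2 : 137 * k + 1 ≤ C := by omega
      have h3 := Nat.mul_le_mul_right n h2
      have h4 : (137 * k + 1) * n = 137 * k * n + n := by ring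
      omega
  · intro n ℓ hℓ
    rw [hF, if_neg, if_neg]
    · have h1 := Nat.mul_le_mul_right (n ^ a) (by omega : C₂ ≤ C)
      omega
    · intro h
      have h1 : ℓ ^ b ≤ (137 * k) ^ b * (2 ^ a * (n ^ a + 1)) := by
        calc ℓ ^ b ≤ (137 * (k * (n + 1))) ^ b := Nat.pow_le_pow_left h b
          _ = (137 * k) ^ b * (n + 1) ^ b := by rw [← mul_pow]; congr 1; ring
          _ ≤ (137 * k) ^ b * (n + 1) ^ a :=
              Nat.mul_le_mul_left _ (Nat.pow_le_pow_right (by omega) hab)
          _ ≤ _ := Nat.mul_le_mul_left _ (succ_pow_le n a)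
      have h2 : (137 * k) ^ b * (2 ^ a * (n ^ a + 1)) = C₄ * n ^ a + C₄ := by rw [hC₄]; ring
      have h3 := Nat.mul_le_mul_right (n ^ a) (by omega : C₄ ≤ C)
      omega
  · rintro Q y y' ⟨h1, h2⟩ ⟨h3, h4⟩
    exact huniq Q y y' h1 h3 h2 h4
  · refine ⟨polyTime_thR A, PT.toTM2 (F := fun w => w) PT.id (fun _ => rfl), ?_, ?_, ?_, ?_⟩
    · refine PT.toTM2 (F := fun w => mq a b e k (unpair (unpair w).1, (unpair w).2)) ?_ ?_
      · exact (PT_mq e k).comp (PT.pair (PT_unpair.comp PT_unpair.p1) PT_unpair.p2)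
      · rintro ⟨p, v⟩
        rw [unpair_enc, unpair_enc]
    · refine PT.decider (F := fun w => md a b k (unpair (unpair w).1, (unpair w).2)) ?_ ?_
      · exact (PT_md k).comp (PT.pair (PT_unpair.comp PT_unpair.p1) PT_unpair.p2)
      · rintro ⟨p, v⟩
        rw [unpair_enc, unpair_enc]
    · -- the profile
      intro x ℓ
      rw [hF, ← hB]
      obtain ⟨m, hm⟩ : ∃ m, m = k * (x.length + 1) := ⟨_, rfl⟩
      have hsub : {i : ℕ | i < 2 ^ (τf a b (k * (x.length + 1)) + 4) ∧ ∃ Q : List Bool,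
          mq a b e k ((x, []), answers B (mq a b e k) (x, []) i) = true :: Q ∧ ℓ ≤ Q.length} ⊆
          ↑((if ℓ ≤ 137 * (k * (x.length + 1)) then
            Finset.range (Off (τf a b (k * (x.length + 1)))) else ∅) ∪
          (if ℓ ^ b ≤ C₂ * x.length ^ a + C₂ then {Off (τf a b (k * (x.length + 1)))} else ∅) :
            Finset ℕ) := by
        rintro i ⟨-, Q, hQ, hℓ⟩
        rw [Finset.coe_union]
        have hvl : (answers B (mq a b e k) (x, []) i).length = i := answers_length _ _ _ _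
        rcases lt_trichotomy i (Off (τf a b (k * (x.length + 1)))) with h | h | h
        · left
          obtain ⟨h1, h2⟩ := lg_spec i
          obtain ⟨j, hj⟩ := Nat.exists_eq_add_of_le h1
          have hjD : j < Dg (lg i) := by
            rw [Off_succ] at h2
            omega
          have htτ : lg i < τf a b (k * (x.length + 1)) := by
            by_contra h'
            have := Off_mono (not_lt.1 h')
            omega
          rw [mq_lt hb hab htτ hjD (by rw [hvl]; exact hj), List.cons.injEq] at hQ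
          have h3 := length_cdH hb hab htτ
            (u := (answers B (mq a b e k) (x, []) i).drop (Off (lg i)))
            (by rw [List.length_drop, hvl]; omega)
          rw [hQ.2] at h3
          rw [if_pos (by omega)]
          exact Finset.mem_coe.2 (Finset.mem_range.2 h)
        · right
          rw [mq_eq hb hab hk1 (by rw [hvl]; exact h), List.cons.injEq] at hQ
          have h3 := length_cdV (e := e) hb hab hk1 (x := x)
            (v := answers B (mq a b e k) (x, []) i) (by rw [hvl]; exact h)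
          rw [hQ.2, ← hC₂] at h3
          rw [if_pos ((Nat.pow_le_pow_left hℓ b).trans h3), h]
          simp
        · exfalso
          rw [mq_gt hb hab hk1 (by rw [hvl]; exact h)] at hQ
          exact absurd hQ (by simp)
      refine (Set.ncard_le_ncard hsub (Finset.finite_toSet _)).trans ?_
      rw [Set.ncard_coe_finset]
      refine (Finset.card_union_le _ _).trans ?_
      apply Nat.add_le_add
      · split_ifs <;> simp
      · split_ifs <;> simp
    · -- the decision
      intro x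
      rw [← hB]
      unfold md
      dsimp only
      rw [off_τ hb hab (hm1 _), answers_getD B _ _ (hoffT _), hfull x [],
        mq_eq hb hab hk1 (by rw [length_hs_Dg]), decide_eq_true_eq, hBm, hμ x]
      have h1 := hcodeV (f (e, x))
      rw [hlv, hτ, hcdV] at h1
      have h2 := (hon (f (e, x))).symm.trans (hacc A (e, x))
      change _ ↔ _ at h2
      rw [← h1] at h2
      rw [hk]
      exact h2.symm

end Pool.Agent.MP_92db0f_lc_thr
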