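import Pool.Agent.MP_92db0f_lc_gold.Ratio
import Pool.Agent.MP_92db0f_lc_wid.Defs
import Pool.Agent.MP_92db0f_lc_wid.Upper

/-!
The upper bound in terms of the classes.
-/

set_option autoImplicit false
set_option linter.unusedSectionVars false

namespace Pool.Agent.MP_92db0f_lc_wid

open Lib.helper60 Function Turing Computability
open MP_92db0f_lc hiding answers
open MP_92db0f_lc_alg (answers PolyTime join)
open MP_92db0f_lc_gold

variable {A : Set (List Bool)} {a b : ℕ} {L : Set (List Bool)}

lemma length_roundAnswers_one (B : Set (List Bool))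
    (q : ((List Bool × List Bool) × List Bool) × ℕ → List Bool) (z : List Bool × List Bool)
    (i : ℕ) : (roundAnswers B q z 1 i).length = i := by
  induction i with
  | zero => rfl
  | succ i ih => rw [roundAnswers, List.length_append, ih, List.length_map, List.length_range]

/-- **The upper bound.** -/
theorem inWidth (ha : 1 ≤ a) (hb : 1 ≤ b)
    (h : ∃ (C : ℕ) (T : ℕ → ℕ) (F : ℕ → ℕ → ℕ) (R : List Bool × List Bool → Prop)
      (q : (List Bool × List Bool) × List Bool → List Bool)
      (d : (List Bool × List Bool) × List Bool → Bool),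
      (∀ n, (2 ^ T n) ^ a ≤ C * n ^ b + C) ∧
      (∀ n, 2 ^ T n ≤ C * n + C) ∧ (∀ n l, C * n ^ a + C < l ^ b → F n l = 0) ∧
      MP_92db0f_lc_thr.Decides A T F (fun _ => []) (fun w => w) R q d L)
    {k σ α δ : ℝ} (hk : (a : ℝ) / b ≤ k) (hσ : (b : ℝ) / a ≤ σ) : InWidth A k σ α δ L := by
  obtain ⟨C, T, F, R, q, d, h0, h1, h4, hD⟩ := h
  obtain ⟨R', q', P, hD', hc⟩ := conv h1 hD
  have hcost : ∀ x : List Bool, ∀ i < 2 ^ T x.length,
      roundCost R' q' (x, []) 1 i ^ b ≤ C * x.length ^ a + C := by
    intro x i hi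
    rcases hc x i with h5 | ⟨Q, hQ, h5⟩
    · rw [h5, zero_pow (by omega)]
      exact Nat.zero_le _
    · have h6 : Q.length ^ b ≤ C * x.length ^ a + C := by
        by_contra hn
        have h7 := h4 x.length Q.length (by omega)
        have h8 := hD.profile x Q.length
        rw [h7] at h8
        have h9 : i ∈ {i : ℕ | i < 2 ^ T x.length ∧ ∃ Q' : List Bool, q ((x, []), answers (join A
            (MP_92db0f_lc_thr.certified (fun w => w) R)) q (x, []) i) = true :: Q' ∧
              Q.length ≤ Q'.length} := ⟨hi, Q, hQ, le_rfl⟩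
        have h10 : {i : ℕ | i < 2 ^ T x.length ∧ ∃ Q' : List Bool, q ((x, []), answers (join A
            (MP_92db0f_lc_thr.certified (fun w => w) R)) q (x, []) i) = true :: Q' ∧
              Q.length ≤ Q'.length}.Finite :=
          (Set.finite_lt_nat (2 ^ T x.length)).subset fun _ hj => hj.1
        have h11 := (Set.ncard_pos h10).mpr ⟨i, h9⟩
        omega
      exact (Nat.pow_le_pow_left h5 b).trans h6
  have hS : Nonempty (TM2ComputableInPolyTime
      (fun z : (List Bool × List Bool) × List Bool => encPair (encPair z.1, z.2))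
        (fun w => w) (fun z : (List Bool × List Bool) × List Bool => z.2)) :=
    TM_of_str PT.snd
  refine ⟨R', q', q', fun z => z.2, d, fun _ => [], fun n => 2 ^ T n, 1, P, C + 1, hD', hD'.query,
    hS, ?_, ?_⟩
  · intro n
    have h5 : (0 : ℝ) ≤ (n : ℝ) ^ α := Real.rpow_nonneg (Nat.cast_nonneg _) _
    simp only [List.length_nil, Nat.cast_zero]
    positivity
  · intro x i hi
    rw [Polynomial.eval_one]
    refine ⟨root_bound hb ha (hcost x i hi) hk, ?_, fun j _ _ => rfl⟩
    rw [length_roundAnswers_one]
    refine le_trans ?_ (root_bound ha hb (h0 x.length) hσ)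
    exact_mod_cast hi.le

end Pool.Agent.MP_92db0f_lc_wid
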